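import Pool.Agent.W209.KT.Stm

set_option autoImplicit false

open Filter MeasureTheory

namespace Pool.Agent.W408.KT

open Pool.Agent.W209.KT

lemma exroot (n : ℕ) (hn : n ≠ 0) : ∃ θ : ℝ, 0 < θ ∧ θ < 1 ∧ θ ^ n = 1 / 2 := by
  have hn' : (n : ℝ) ≠ 0 := by exact_mod_cast hn
  have hp : ((1 / 2 : ℝ) ^ ((1 : ℝ) / n)) ^ n = 1 / 2 := by
    rw [← Real.rpow_natCast, ← Real.rpow_mul (by norm_num), one_div_mul_cancel hn', Real.rpow_one]
  refine ⟨(1 / 2 : ℝ) ^ ((1 : ℝ) / n), by positivity, ?_, hp⟩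
  by_contra h
  push Not at h
  have := one_le_pow₀ h (n := n)
  rw [hp] at this
  norm_num at this

lemma cnt_fin (α : Fin 2 → ℝ) (L : ℕ) (ψ : ℝ) :
    ({y : ℤ | |y| ≤ (L : ℤ) ∧ ∀ j, nrm (α j * y) ≤ ψ} : Set ℤ).Finite :=
  (Set.finite_Icc (-(L : ℤ)) L).subset (fun y hy => abs_le.1 hy.1)

lemma cnt_mono (α : Fin 2 → ℝ) (L : ℕ) (ψ ψ' : ℝ) (h : ψ ≤ ψ') : cnt α L ψ ≤ cnt α L ψ' :=
  Set.ncard_le_ncard (fun y hy => ⟨hy.1, fun j => (hy.2 j).trans h⟩) (cnt_fin α L ψ')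

lemma cnt_le (α : Fin 2 → ℝ) (L : ℕ) (ψ : ℝ) : cnt α L ψ ≤ 2 * L + 1 := by
  have h1 : cnt α L ψ ≤ (Set.Icc (-(L : ℤ)) L).ncard :=
    Set.ncard_le_ncard (fun y hy => abs_le.1 hy.1) (Set.finite_Icc _ _)
  have h2 : (Set.Icc (-(L : ℤ)) L).ncard = 2 * L + 1 := by
    rw [← Finset.coe_Icc, Set.ncard_coe_finset, Int.card_Icc]
    omega
  omega

lemma w_summable : Summable (fun k : ℕ => (1 / 2 ^ 9 : ℝ) ^ lev k) := by
  have h1 : Summable (fun k : ℕ => 1 / ((k : ℝ)) ^ ((9 : ℝ) / 8)) :=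
    Real.summable_one_div_nat_rpow.2 (by norm_num)
  have h2 : Summable (fun k : ℕ => 1 / (((k + 1 : ℕ) : ℝ)) ^ ((9 : ℝ) / 8)) :=
    (summable_nat_add_iff 1).2 h1
  refine Summable.of_nonneg_of_le (fun k => by positivity) (fun k => ?_) (h2.mul_left 512)
  have h3 : k + 1 < 256 ^ (lev k + 1) := Nat.lt_pow_succ_log_self (by norm_num) _
  have h4 : ((k + 1 : ℕ) : ℝ) ≤ 256 ^ (lev k + 1) := by exact_mod_cast h3.le
  have h5 : (((k + 1 : ℕ) : ℝ)) ^ ((9 : ℝ) / 8) ≤ ((256 : ℝ) ^ (lev k + 1)) ^ ((9 : ℝ) / 8) :=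
    Real.rpow_le_rpow (by positivity) h4 (by norm_num)
  have h6 : ((256 : ℝ) ^ (lev k + 1)) ^ ((9 : ℝ) / 8) = 512 ^ (lev k + 1) := by
    rw [← Real.rpow_natCast, ← Real.rpow_mul (by norm_num), mul_comm, Real.rpow_mul (by norm_num),
      Real.rpow_natCast]
    congr 1
    rw [show (256 : ℝ) = 2 ^ (8 : ℝ) by norm_num, ← Real.rpow_mul (by norm_num)]
    norm_num
  rw [h6] at h5
  have h7 : 0 < (((k + 1 : ℕ) : ℝ)) ^ ((9 : ℝ) / 8) := by positivity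
  rw [mul_one_div, le_div_iff₀ h7, one_div, inv_pow]
  rw [inv_mul_le_iff₀ (by positivity)]
  calc _ ≤ (512 : ℝ) ^ (lev k + 1) := h5
    _ = _ := by rw [pow_succ]; norm_num

lemma int_sum (ρ : ℝ) (h0 : 0 < ρ) (h1 : ρ < 1) : Summable (fun n : ℤ => ρ ^ n.natAbs) := by
  rw [summable_int_iff_summable_nat_and_neg]
  constructor
  · simpa using summable_geometric_of_lt_one h0.le h1
  · simpa using summable_geometric_of_lt_one h0.le h1

lemma G_summable (φ : ℤ → ℝ) (hpos : ∀ n, 0 ≤ φ n) (hI : Summable φ) (w : ℕ → ℝ)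
    (hw : ∀ k, 0 ≤ w k) (hs : Summable w) (c : ℕ → ℤ) :
    Summable (fun p : ℕ × ℕ => w p.2 * φ ((p.1 : ℤ) - c p.2)) := by
  have hinj : ∀ k, Function.Injective (fun i : ℕ => (i : ℤ) - c k) := fun k i j h => by
    have : (i : ℤ) - c k = (j : ℤ) - c k := h
    omega
  have hk : ∀ k, Summable (fun i : ℕ => w k * φ ((i : ℤ) - c k)) := fun k =>
    (hI.comp_injective (hinj k)).mul_left (w k)
  have hle : ∀ k, ∑' i : ℕ, φ ((i : ℤ) - c k) ≤ ∑' n : ℤ, φ n := fun k =>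
    tsum_comp_le_tsum_of_inj (f := φ) hI hpos (hinj k)
  have hnn : 0 ≤ fun p : ℕ × ℕ => w p.1 * φ ((p.2 : ℤ) - c p.1) :=
    fun p => mul_nonneg (hw _) (hpos _)
  have hs2 : Summable (fun k => w k * ∑' n : ℤ, φ n) := hs.mul_right (∑' n : ℤ, φ n)
  have hle2 : ∀ k, ∑' i : ℕ, w k * φ ((i : ℤ) - c k) ≤ w k * ∑' n : ℤ, φ n := fun k => by
    rw [tsum_mul_left]
    exact mul_le_mul_of_nonneg_left (hle k) (hw k)
  have h3 : Summable (fun k => ∑' i : ℕ, w k * φ ((i : ℤ) - c k)) :=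
    Summable.of_nonneg_of_le (fun k => tsum_nonneg fun i => mul_nonneg (hw _) (hpos _)) hle2 hs2
  have key : Summable (fun p : ℕ × ℕ => w p.1 * φ ((p.2 : ℤ) - c p.1)) :=
    (summable_prod_of_nonneg hnn).2 ⟨hk, h3⟩
  exact key.prod_symm

/-- the estimates of the terms -/
lemma terms (K Q d l ψ : ℝ) (hK : 1 ≤ K) (hQ1 : 1 ≤ Q) (hd : 1 ≤ d) (hl : 1 ≤ l) (hψ : 0 < ψ)
    (hl3 : l ^ 3 ≤ d) (hQ : Q ≤ d ^ 72) (hψd : ψ * d ≤ 1) (hP : Q * ψ ^ 12 ≤ K) :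
    ψ ^ 10 * ((1 + K * Q / (ψ * d ^ 36) + K * Q * d * ψ / (d ^ 12 / l ^ 12)) *
      (1 + min (d * ψ * (d ^ 12 / l ^ 12)) (K * Q) / d ^ 2)) ≤
    4 * K ^ 2 * (1 / d) + ψ ^ 10 * (min (d * ψ * (d ^ 12 / l ^ 12)) (K * Q) / d ^ 2)
      + K * (Q * ψ ^ 12) := by
  have hd0 : 0 < d := by linarith
  have hl0 : 0 < l := by linarith
  have hK0 : 0 < K := by linarith
  have hQ0 : 0 < Q := by linarith
  set Z := min (d * ψ * (d ^ 12 / l ^ 12)) (K * Q) / d ^ 2 with hZ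
  have hZ0 : 0 ≤ Z := by positivity
  have hZ1 : Z ≤ ψ * d ^ 11 / l ^ 12 := by
    rw [hZ, div_le_div_iff₀ (by positivity) (by positivity)]
    calc min (d * ψ * (d ^ 12 / l ^ 12)) (K * Q) * l ^ 12 ≤ (d * ψ * (d ^ 12 / l ^ 12)) * l ^ 12 := by
          gcongr
          exact min_le_left _ _
      _ = ψ * d ^ 11 * d ^ 2 := by field_simp
  have t1 : ψ ^ 10 ≤ K ^ 2 * (1 / d) := by
    have h1 : ψ ≤ 1 / d := by rw [le_div_iff₀ hd0]; exact hψd
    have h2 : ψ ≤ 1 := h1.trans (by rw [div_le_one hd0]; exact hd)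
    have h3 : ψ ^ 10 ≤ ψ := by
      calc ψ ^ 10 = ψ ^ 9 * ψ := by ring
        _ ≤ 1 * ψ := by gcongr; exact pow_le_one₀ hψ.le h2
        _ = ψ := one_mul _
    calc ψ ^ 10 ≤ 1 / d := h3.trans h1
      _ = 1 * (1 / d) := by ring
      _ ≤ K ^ 2 * (1 / d) := by gcongr; exact one_le_pow₀ hK
  have a2 : Q * ψ ^ 9 ≤ K * d ^ 35 := by
    refine le_of_pow_le_pow_left₀ (n := 4) (by norm_num) (by positivity) ?_
    calc (Q * ψ ^ 9) ^ 4 = Q * (Q * ψ ^ 12) ^ 3 := by ring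
      _ ≤ d ^ 72 * K ^ 3 := by gcongr
      _ ≤ d ^ 140 * K ^ 4 := by
          gcongr <;> norm_num
      _ = (K * d ^ 35) ^ 4 := by ring
  have a3 : Q * ψ ^ 11 * l ^ 12 ≤ K * d ^ 10 := by
    refine le_of_pow_le_pow_left₀ (n := 12) (by norm_num) (by positivity) ?_
    calc (Q * ψ ^ 11 * l ^ 12) ^ 12 = Q * (Q * ψ ^ 12) ^ 11 * (l ^ 3) ^ 48 := by ring
      _ ≤ d ^ 72 * K ^ 11 * d ^ 48 := by gcongr
      _ = d ^ 120 * K ^ 11 := by ring
      _ ≤ d ^ 120 * K ^ 12 := by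
          gcongr <;> norm_num
      _ = (K * d ^ 10) ^ 12 := by ring
  have a5 : Q * ψ ^ 10 ≤ K * d ^ 24 := by
    refine le_of_pow_le_pow_left₀ (n := 6) (by norm_num) (by positivity) ?_
    calc (Q * ψ ^ 10) ^ 6 = Q * (Q * ψ ^ 12) ^ 5 := by ring
      _ ≤ d ^ 72 * K ^ 5 := by gcongr
      _ ≤ d ^ 144 * K ^ 6 := by
          gcongr <;> norm_num
      _ = (K * d ^ 24) ^ 6 := by ring
  have t2 : ψ ^ 10 * (K * Q / (ψ * d ^ 36)) ≤ K ^ 2 * (1 / d) := by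
    have e : ψ ^ 10 * (K * Q / (ψ * d ^ 36)) = K * (Q * ψ ^ 9) / d ^ 36 := by
      field_simp
    rw [e, div_le_iff₀ (by positivity)]
    calc K * (Q * ψ ^ 9) ≤ K * (K * d ^ 35) := by gcongr
      _ = K ^ 2 * (1 / d) * d ^ 36 := by field_simp
  have t3 : ψ ^ 10 * (K * Q * d * ψ / (d ^ 12 / l ^ 12)) ≤ K ^ 2 * (1 / d) := by
    have e : ψ ^ 10 * (K * Q * d * ψ / (d ^ 12 / l ^ 12)) = K * (Q * ψ ^ 11 * l ^ 12) / d ^ 11 := by
      field_simp
    rw [e, div_le_iff₀ (by positivity)]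
    calc K * (Q * ψ ^ 11 * l ^ 12) ≤ K * (K * d ^ 10) := by gcongr
      _ = K ^ 2 * (1 / d) * d ^ 11 := by field_simp
  have t5 : ψ ^ 10 * (K * Q / (ψ * d ^ 36)) * Z ≤ K ^ 2 * (1 / d) := by
    have hl12 : 1 ≤ l ^ 12 := one_le_pow₀ hl
    calc ψ ^ 10 * (K * Q / (ψ * d ^ 36)) * Z
        ≤ ψ ^ 10 * (K * Q / (ψ * d ^ 36)) * (ψ * d ^ 11 / l ^ 12) := by gcongr
      _ = K * (Q * ψ ^ 10) / d ^ 25 / l ^ 12 := by field_simp
      _ ≤ K * (Q * ψ ^ 10) / d ^ 25 := div_le_self (by positivity) hl12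
      _ ≤ K * (K * d ^ 24) / d ^ 25 := by gcongr
      _ = K ^ 2 * (1 / d) := by field_simp
  have t6 : ψ ^ 10 * (K * Q * d * ψ / (d ^ 12 / l ^ 12)) * Z ≤ K * (Q * ψ ^ 12) := by
    calc ψ ^ 10 * (K * Q * d * ψ / (d ^ 12 / l ^ 12)) * Z
        ≤ ψ ^ 10 * (K * Q * d * ψ / (d ^ 12 / l ^ 12)) * (ψ * d ^ 11 / l ^ 12) := by gcongr
      _ = K * (Q * ψ ^ 12) := by field_simp
  have e : ψ ^ 10 * ((1 + K * Q / (ψ * d ^ 36) + K * Q * d * ψ / (d ^ 12 / l ^ 12)) * (1 + Z)) =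
      ψ ^ 10 + ψ ^ 10 * (K * Q / (ψ * d ^ 36)) + ψ ^ 10 * (K * Q * d * ψ / (d ^ 12 / l ^ 12))
      + ψ ^ 10 * Z + ψ ^ 10 * (K * Q / (ψ * d ^ 36)) * Z
      + ψ ^ 10 * (K * Q * d * ψ / (d ^ 12 / l ^ 12)) * Z := by ring
  rw [e]
  linarith

/-- the critical term -/
lemma critical (K d l ψ ρ : ℝ) (i a : ℕ) (hK : 1 ≤ K) (hd : d = 2 ^ a) (hl : 1 ≤ l) (hψ : 0 < ψ)
    (hψd : ψ * d ≤ 1) (hP : 2 ^ i * ψ ^ 12 ≤ K) (hρ : 0 < ρ) (hρ4 : ρ ^ 4 = 1 / 2) :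
    ψ ^ 10 * (min (d * ψ * (d ^ 12 / l ^ 12)) (K * 2 ^ i) / d ^ 2) ≤
      K * ((1 / l ^ 9) * ρ ^ ((i : ℤ) - 12 * a).natAbs) := by
  have hd1 : 1 ≤ d := by rw [hd]; exact one_le_pow₀ (by norm_num)
  have hd0 : 0 < d := by linarith
  have hl0 : 0 < l := by linarith
  have hK0 : 0 < K := by linarith
  have hd12 : d ^ 12 = 2 ^ (12 * a) := by rw [hd, ← pow_mul, mul_comm]
  set T := ψ ^ 10 * (min (d * ψ * (d ^ 12 / l ^ 12)) (K * 2 ^ i) / d ^ 2) with hT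
  have hT0 : 0 ≤ T := by positivity
  have b1 : T ≤ K * 2 ^ i / d ^ 12 := by
    calc T ≤ ψ ^ 10 * ((K * 2 ^ i) / d ^ 2) := by
          rw [hT]; gcongr; exact min_le_right _ _
      _ = (ψ * d) ^ 10 * (K * 2 ^ i / d ^ 12) := by field_simp
      _ ≤ 1 * (K * 2 ^ i / d ^ 12) := by
          gcongr
          exact pow_le_one₀ (by positivity) hψd
      _ = _ := one_mul _
  have b2 : T ≤ ψ ^ 11 * d ^ 11 / l ^ 12 := by
    calc T ≤ ψ ^ 10 * ((d * ψ * (d ^ 12 / l ^ 12)) / d ^ 2) := by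
          rw [hT]; gcongr; exact min_le_left _ _
      _ = _ := by field_simp
  have b3 : ψ ^ 11 * d ^ 11 / l ^ 12 ≤ 1 / l ^ 12 := by
    gcongr
    rw [← mul_pow]
    exact pow_le_one₀ (by positivity) hψd
  have hl12 : 1 ≤ l ^ 36 := one_le_pow₀ hl
  rcases le_total i (12 * a) with hia | hia
  · obtain ⟨n, hn⟩ := Nat.exists_eq_add_of_le hia
    have hn2 : ((i : ℤ) - 12 * a).natAbs = n := by omega
    rw [hn2]
    refine le_of_pow_le_pow_left₀ (n := 4) (by norm_num) (by positivity) ?_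
    have e1 : (ρ ^ n) ^ 4 = (1 / 2) ^ n := by rw [← pow_mul, mul_comm, pow_mul, hρ4]
    have e2 : (2 : ℝ) ^ i / d ^ 12 = (1 / 2) ^ n := by
      rw [hd12, hn, pow_add, one_div, inv_pow]
      field_simp
    calc T ^ 4 = T * T ^ 3 := by ring
      _ ≤ (K * 2 ^ i / d ^ 12) * (1 / l ^ 12) ^ 3 := by
          gcongr
          exact b2.trans b3
      _ = K * ((2 : ℝ) ^ i / d ^ 12) / l ^ 36 := by field_simp
      _ = K * (1 / 2) ^ n / l ^ 36 := by rw [e2]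
      _ ≤ K ^ 4 * (1 / 2) ^ n / l ^ 36 := by
          gcongr
          exact le_self_pow₀ hK (by norm_num)
      _ = K ^ 4 * (1 / l ^ 9) ^ 4 * (1 / 2) ^ n := by field_simp
      _ = (K * ((1 / l ^ 9) * ρ ^ n)) ^ 4 := by rw [← e1]; ring
  · obtain ⟨n, hn⟩ := Nat.exists_eq_add_of_le hia
    have hn2 : ((i : ℤ) - 12 * a).natAbs = n := by omega
    rw [hn2]
    refine le_of_pow_le_pow_left₀ (n := 12) (by norm_num) (by positivity) ?_
    have e1 : (ρ ^ n) ^ 12 = (1 / 2) ^ (3 * n) := by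
      rw [← pow_mul, mul_comm, show 12 * n = 4 * (3 * n) by ring, pow_mul, hρ4]
    have e3 : ψ ^ 12 * d ^ 12 ≤ K * (1 / 2) ^ n := by
      rw [hd12, one_div, inv_pow, ← div_eq_mul_inv, le_div_iff₀ (by positivity)]
      calc ψ ^ 12 * 2 ^ (12 * a) * 2 ^ n = 2 ^ i * ψ ^ 12 := by rw [hn, pow_add]; ring
        _ ≤ K := hP
    calc T ^ 12 ≤ (ψ ^ 11 * d ^ 11 / l ^ 12) ^ 12 := by gcongr
      _ = (ψ ^ 12 * d ^ 12) ^ 11 / l ^ 144 := by rw [div_pow]; ring_nf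
      _ ≤ (K * (1 / 2) ^ n) ^ 11 / l ^ 144 := by gcongr
      _ = K ^ 11 * (1 / 2) ^ (11 * n) / l ^ 144 := by ring
      _ ≤ K ^ 12 * (1 / 2) ^ (3 * n) / l ^ 108 := by
          have c1 : K ^ 11 ≤ K ^ 12 := pow_le_pow_right₀ hK (by norm_num)
          have c2 : (1 / 2 : ℝ) ^ (11 * n) ≤ (1 / 2) ^ (3 * n) :=
            pow_le_pow_of_le_one (by norm_num) (by norm_num) (by omega)
          have c3 : l ^ 108 ≤ l ^ 144 := pow_le_pow_right₀ hl (by norm_num)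
          gcongr
      _ = K ^ 12 * (1 / l ^ 9) ^ 12 * (1 / 2) ^ (3 * n) := by
          have e5 : (1 / l ^ 9) ^ 12 = 1 / l ^ 108 := by
            rw [one_div, inv_pow, ← pow_mul, one_div]
          rw [e5]
          ring
      _ = (K * ((1 / l ^ 9) * ρ ^ n)) ^ 12 := by rw [← e1]; ring

theorem C : S_C := by
  intro hCA hCB A s hG K hK
  obtain ⟨C1, hC1, hA⟩ := hCA
  obtain ⟨C2, hC2, hB⟩ := hCB
  obtain ⟨θ, hθ0, hθ1, hθ⟩ := exroot 72 (by norm_num)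
  obtain ⟨ρ, hρ0, hρ1, hρ⟩ := exroot 4 (by norm_num)
  have hK1 : (1 : ℝ) ≤ K := by exact_mod_cast hK
  have hK0 : (0 : ℝ) < K := by linarith
  set w : ℕ → ℝ := fun k => (1 / 2 ^ 9 : ℝ) ^ lev k with hw
  have hw0 : ∀ k, 0 ≤ w k := fun k => by positivity
  set φ : ℤ → ℝ := fun n => ρ ^ n.natAbs with hφ
  have hφ0 : ∀ n, 0 ≤ φ n := fun n => pow_nonneg hρ0.le _
  set c : ℕ → ℤ := fun k => 12 * ((1000 * 36 ^ k : ℕ) : ℤ) with hc
  have hGs := G_summable φ hφ0 (int_sum ρ hρ0 hρ1) w hw0 w_summable c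
  set e1 : ℕ → ℝ := fun i => if i < 2000 then (K : ℝ) * (2 * K * 2 ^ i + 1) else 0 with he1
  have hs1 : Summable e1 := by
    apply summable_of_ne_finset_zero (s := Finset.range 2000)
    intro i hi
    rw [Finset.mem_range] at hi
    simp only [he1]
    rw [if_neg hi]
  have hs3 : Summable (fun i : ℕ => ∑' k, w k * φ ((i : ℤ) - c k)) := hGs.prod
  have hnn1 : ∀ i, 0 ≤ e1 i := fun i => by
    simp only [he1]
    split_ifs
    · positivity
    · exact le_rfl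
  have hnn3 : ∀ i : ℕ, 0 ≤ ∑' k, w k * φ ((i : ℤ) - c k) := fun i =>
    tsum_nonneg fun k => mul_nonneg (hw0 _) (hφ0 _)
  refine ⟨1 + 4 * C1 * K + 4 * C2 * K ^ 2, fun i => e1 i + θ ^ i + ∑' k, w k * φ ((i : ℤ) - c k),
    by positivity, (hs1.add (summable_geometric_of_lt_one hθ0.le hθ1)).add hs3, ?_⟩
  intro i ψ hψ hP
  set M : ℝ := 2 ^ i * ψ ^ 12 with hM
  have hM0 : 0 ≤ M := by positivity
  have hθi : 0 ≤ θ ^ i := by positivity
  set S3 : ℝ := ∑' k, w k * φ ((i : ℤ) - c k) with hS3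
  have hS30 := hnn3 i
  have he10 := hnn1 i
  rcases lt_or_ge i 2000 with hi | hi
  · -- small i
    have h1 : ψ ^ 10 ≤ K := by
      rcases le_total ψ 1 with h | h
      · exact (pow_le_one₀ hψ.le h).trans hK1
      · have h2 : ψ ^ 10 ≤ ψ ^ 12 := pow_le_pow_right₀ h (by norm_num)
        have h3 : ψ ^ 12 ≤ 2 ^ i * ψ ^ 12 := le_mul_of_one_le_left (by positivity)
          (one_le_pow₀ (by norm_num))
        linarith
    have h2 : (cnt (fun j => A j 10) (K * 2 ^ i) ψ : ℝ) ≤ 2 * K * 2 ^ i + 1 := by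
      have := cnt_le (fun j => A j 10) (K * 2 ^ i) ψ
      have h3 : (cnt (fun j => A j 10) (K * 2 ^ i) ψ : ℝ) ≤ ((2 * (K * 2 ^ i) + 1 : ℕ) : ℝ) := by
        exact_mod_cast this
      push_cast at h3
      linarith
    have h3 : e1 i = K * (2 * K * 2 ^ i + 1) := by
      simp only [he1]
      rw [if_pos hi]
    calc ψ ^ 10 * (cnt (fun j => A j 10) (K * 2 ^ i) ψ : ℝ) ≤ K * (2 * K * 2 ^ i + 1) := by gcongr
      _ = 1 * (0 + (e1 i + 0 + 0)) := by rw [h3]; ring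
      _ ≤ (1 + 4 * C1 * K + 4 * C2 * K ^ 2) * (M + (e1 i + θ ^ i + S3)) := by
          gcongr
          have : 0 ≤ 4 * C1 * K + 4 * C2 * K ^ 2 := by positivity
          linarith
  · -- choose k
    set k := Nat.log 36 (i / 2000) with hk
    have hi2 : i / 2000 ≠ 0 := by omega
    have hk1 : 36 ^ k ≤ i / 2000 := Nat.pow_log_le_self 36 hi2
    have hk2 : i / 2000 < 36 ^ (k + 1) := Nat.lt_pow_succ_log_self (by norm_num) _
    rw [pow_succ] at hk2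
    have hk3 : 2000 * 36 ^ k ≤ i := by omega
    have hk4 : i < 72000 * 36 ^ k := by omega
    have hDr : (D k : ℝ) = 2 ^ (1000 * 36 ^ k) := by unfold D; push_cast; rfl
    set d : ℝ := (D k : ℝ) with hd
    have hd1 : 1 ≤ d := by rw [hDr]; exact one_le_pow₀ (by norm_num)
    have hd0 : 0 < d := by linarith
    have hQ : (2 : ℝ) ^ i ≤ d ^ 72 := by
      rw [hDr, ← pow_mul]
      exact pow_le_pow_right₀ (by norm_num) (by omega)
    have hLN : D k ^ 2 ≤ K * 2 ^ i := by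
      unfold D
      rw [← pow_mul]
      calc 2 ^ (1000 * 36 ^ k * 2) ≤ 2 ^ i := Nat.pow_le_pow_right (by norm_num) (by omega)
        _ ≤ K * 2 ^ i := Nat.le_mul_of_pos_left _ (by omega)
    rcases lt_or_ge 1 (ψ * 200 * d) with hcase | hcase
    · -- coarse
      have h1 := hA A s hG k (K * 2 ^ i) (2 * ψ) (by rw [← hd]; linarith) hLN
      have h2 : (cnt (fun j => A j 10) (K * 2 ^ i) ψ : ℝ) ≤
          cnt (fun j => A j 10) (K * 2 ^ i) (2 * ψ) := by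
        exact_mod_cast cnt_mono _ _ _ _ (by linarith)
      push_cast at h1
      calc ψ ^ 10 * (cnt (fun j => A j 10) (K * 2 ^ i) ψ : ℝ)
          ≤ ψ ^ 10 * (C1 * (K * 2 ^ i) * (2 * ψ) ^ 2) := by
            gcongr
            exact h2.trans h1
        _ = (4 * C1 * K) * (M + 0) := by rw [hM]; ring
        _ ≤ (1 + 4 * C1 * K + 4 * C2 * K ^ 2) * (M + (e1 i + θ ^ i + S3)) := by
            gcongr
            · have : 0 ≤ 4 * C2 * (K : ℝ) ^ 2 := by positivity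
              linarith
            · positivity
    · -- fine
      have h1 := hB A s hG k (K * 2 ^ i) ψ hψ (by rw [← hd]; exact hcase)
        (Nat.one_le_iff_ne_zero.2 (by positivity))
      push_cast at h1
      rw [← hd] at h1
      set l : ℝ := 2 ^ lev k with hl
      have hl1 : 1 ≤ l := one_le_pow₀ (by norm_num)
      have hF : F k = d ^ 12 / l ^ 12 := by
        unfold F
        rw [hl, ← pow_mul, mul_comm 12 (lev k)]
      rw [hF] at h1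
      have hψd : ψ * d ≤ 1 := by nlinarith [mul_pos hψ hd0]
      have hlk : 3 * lev k ≤ 1000 * 36 ^ k := by
        have g1 : lev k ≤ k + 1 := Nat.log_le_self _ _
        have g2 : k < 36 ^ k := Nat.lt_pow_self (by norm_num)
        omega
      have hl3 : l ^ 3 ≤ d := by
        rw [hDr, hl, ← pow_mul]
        exact pow_le_pow_right₀ (by norm_num) (by omega)
      have ht := terms K (2 ^ i) d l ψ hK1 (one_le_pow₀ (by norm_num)) hd1 hl1 hψ hl3 hQ hψd hP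
      have hcr := critical K d l ψ ρ i (1000 * 36 ^ k) hK1 hDr hl1 hψ hψd hP hρ0 hρ
      have hdθ : 1 / d ≤ θ ^ i := by
        refine le_of_pow_le_pow_left₀ (n := 72) (by norm_num) (by positivity) ?_
        rw [← pow_mul, mul_comm, pow_mul, hθ, div_pow, one_pow, div_pow, one_pow]
        gcongr
      have hwl : w k = 1 / l ^ 9 := by
        simp only [hw, hl]
        rw [div_pow, one_pow, ← pow_mul, ← pow_mul, mul_comm]
      have hterm : (1 / l ^ 9) * ρ ^ ((i : ℤ) - 12 * ((1000 * 36 ^ k : ℕ) : ℤ)).natAbs ≤ S3 := by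
        have hsk : Summable (fun k => w k * φ ((i : ℤ) - c k)) := hGs.prod_factor i
        have := hsk.le_tsum k (fun j _ => mul_nonneg (hw0 _) (hφ0 _))
        rw [hwl] at this
        exact this
      calc ψ ^ 10 * (cnt (fun j => A j 10) (K * 2 ^ i) ψ : ℝ)
          ≤ ψ ^ 10 * (C2 * (1 + K * 2 ^ i / (ψ * d ^ 36) + K * 2 ^ i * d * ψ / (d ^ 12 / l ^ 12)) *
            (1 + min (d * ψ * (d ^ 12 / l ^ 12)) (K * 2 ^ i) / d ^ 2)) := by gcongr
        _ = C2 * (ψ ^ 10 * ((1 + K * 2 ^ i / (ψ * d ^ 36) + K * 2 ^ i * d * ψ / (d ^ 12 / l ^ 12)) *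
            (1 + min (d * ψ * (d ^ 12 / l ^ 12)) (K * 2 ^ i) / d ^ 2))) := by ring
        _ ≤ C2 * (4 * K ^ 2 * θ ^ i + K * S3 + K * M) := by
            gcongr
            refine ht.trans ?_
            have q1 : 4 * (K : ℝ) ^ 2 * (1 / d) ≤ 4 * K ^ 2 * θ ^ i := by gcongr
            have q2 := hcr.trans (mul_le_mul_of_nonneg_left hterm hK0.le)
            linarith
        _ ≤ (4 * C2 * K ^ 2) * (M + (e1 i + θ ^ i + S3)) := by
            have hKK : (K : ℝ) ≤ 4 * K ^ 2 := by nlinarith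
            have q3 : (K : ℝ) * S3 ≤ 4 * K ^ 2 * S3 := by gcongr
            have q4 : (K : ℝ) * M ≤ 4 * K ^ 2 * M := by gcongr
            have q5 : 0 ≤ 4 * (K : ℝ) ^ 2 * e1 i := by positivity
            have q6 : 4 * (K : ℝ) ^ 2 * θ ^ i + K * S3 + K * M ≤
                4 * K ^ 2 * (M + (e1 i + θ ^ i + S3)) := by linarith
            calc C2 * (4 * K ^ 2 * θ ^ i + K * S3 + K * M)
                ≤ C2 * (4 * K ^ 2 * (M + (e1 i + θ ^ i + S3))) := by gcongr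
              _ = _ := by ring
        _ ≤ (1 + 4 * C1 * K + 4 * C2 * K ^ 2) * (M + (e1 i + θ ^ i + S3)) := by
            gcongr
            have : 0 ≤ 4 * C1 * (K : ℝ) := by positivity
            linarith

end Pool.Agent.W408.KT
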